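import Pool.Agent.H.MP_b67b84_gt.C

set_option autoImplicit false

namespace Pool.Agent.Results.MP_b67b84_gt.Unbounded

open Classical in
/-- A geodesic net in the Euclidean plane `ℂ` with vertex set `V`, unbalanced vertices `U` and
edges the straight segments joining adjacent vertices of `G` (all of multiplicity one). -/
structure IsNet (V U : Finset ℂ) (G : SimpleGraph ℂ) : Prop where
  sub : U ⊆ V
  supp : ∀ a b, G.Adj a b → a ∈ V ∧ b ∈ V
  conn : ∀ a ∈ V, ∀ b ∈ V, G.Reachable a b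
  meet : ∀ a b c d, G.Adj a b → G.Adj c d → ¬ ((a = c ∧ b = d) ∨ (a = d ∧ b = c)) →
    ∀ x ∈ segment ℝ a b ∩ segment ℝ c d, (x = a ∨ x = b) ∧ (x = c ∨ x = d)
  emb : ∀ a b v, G.Adj a b → v ∈ V → v ∈ segment ℝ a b → v = a ∨ v = b
  deg : ∀ v ∈ V, v ∉ U → 3 ≤ (V.filter (fun w => G.Adj v w)).card
  bal : ∀ v ∈ V, v ∉ U → ∑ w ∈ V.filter (fun w => G.Adj v w), (w - v) / ((‖w - v‖ : ℝ) : ℂ) = 0
  noUU : ∀ a ∈ U, ∀ b ∈ U, ¬ G.Adj a b

open Classical in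
theorem result : ∃ U : Finset ℂ, U.card = 4 ∧ ∀ N : ℕ, ∃ (V : Finset ℂ) (G : SimpleGraph ℂ),
    IsNet V U G ∧ N ≤ (V \ U).card := by
  have hM : ∀ v, v ∈ (Finset.univ.image fun k : Fin 4 => H.MP_b67b84_gt.r4 k * (1 + Complex.I)) ↔
      ∃ k, H.MP_b67b84_gt.r4 k * (1 + Complex.I) = v := by
    intro v
    simp only [Finset.mem_image, Finset.mem_univ, true_and]
  refine ⟨Finset.univ.image fun k : Fin 4 => H.MP_b67b84_gt.r4 k * (1 + Complex.I), ?_, fun N => ?_⟩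
  · rw [Finset.card_image_of_injective _ fun k l e =>
      H.MP_b67b84_gt.r4_quad (by simp) (by simp) (by simp) (by simp) e]
    simp
  obtain ⟨V, G, p1, p2, p3, p4, p5, p6, p7, p8⟩ := H.MP_b67b84_gt.net4 N
  have hn : ∀ v, v ∉ (Finset.univ.image fun k : Fin 4 => H.MP_b67b84_gt.r4 k * (1 + Complex.I)) ↔
      ∀ k, H.MP_b67b84_gt.r4 k * (1 + Complex.I) ≠ v := by
    intro v; rw [hM]; simp only [not_exists, ne_eq]
  refine ⟨V, G, ⟨?_, p2, p6, p3, p4, fun v hv h => (p5 v hv ((hn v).1 h)).1,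
    fun v hv h => (p5 v hv ((hn v).1 h)).2, ?_⟩, ?_⟩
  · intro v hv
    obtain ⟨k, rfl⟩ := (hM v).1 hv
    exact p1 k
  · intro a ha b hb
    obtain ⟨k, rfl⟩ := (hM a).1 ha
    obtain ⟨l, rfl⟩ := (hM b).1 hb
    exact p7 k l
  · refine le_trans p8.le (Finset.card_le_card fun v hv => ?_)
    rw [Finset.mem_filter] at hv
    exact Finset.mem_sdiff.2 ⟨hv.1, (hn v).2 hv.2⟩

end Pool.Agent.Results.MP_b67b84_gt.Unbounded
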